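import Pool.Agent.N898.BU.Stm

/-! Project BU, part GG: Gaussian means of a logarithmically growing function. -/

set_option autoImplicit false

namespace Pool.Agent.N196.BU

open Filter Topology Complex MeasureTheory Set Pool.Agent.H491R3 Pool.Agent.N210.FV
open Pool.Agent.N898.BU

theorem exp_re' (a b : ℝ) : (Complex.exp ((a : ℂ) + b * I)).re = Real.exp a * Real.cos b := by
  rw [Complex.exp_re]
  simp

/-- the real part of the weight -/
theorem W_re (T x t : ℝ) : (W T x 0 t).re =
    Real.exp ((x ^ 2 - t ^ 2) / T ^ 2) * Real.cos (2 * x * t / T ^ 2) := by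
  have e : W T x 0 t = Complex.exp ((((x ^ 2 - t ^ 2) / T ^ 2 : ℝ) : ℂ) +
      ((2 * x * t / T ^ 2 : ℝ) : ℂ) * I) := by
    unfold W KK
    rw [ofReal_zero, mul_zero, Complex.exp_zero, mul_one]
    congr 1
    push_cast
    have h1 : ((x:ℂ) + t * I - 0 * I) ^ 2 = (x:ℂ) ^ 2 - t ^ 2 + 2 * x * t * I := by
      ring_nf
      rw [I_sq]
      ring
    rw [h1]
    ring
  rw [e, exp_re']

theorem cos_half {y : ℝ} (hy : |y| ≤ 1) : 1 / 2 ≤ Real.cos y := by
  have h1 := Real.one_sub_sq_div_two_le_cos (x := y)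
  have h2 : y ^ 2 ≤ 1 := by
    rw [← sq_abs]
    exact pow_le_one₀ (abs_nonneg y) hy
  linarith

theorem ev_small (x : ℝ) : ∀ᶠ T : ℝ in atTop, 2 * |x| * (T ^ (9 / 8 : ℝ) + 1) ≤ T ^ 2 := by
  have h1 := (tendsto_rpow_atTop (by norm_num : (0:ℝ) < 7 / 8)).eventually_ge_atTop (4 * |x|)
  filter_upwards [h1, eventually_ge_atTop 1] with T h1 hT
  have hT0 : 0 < T := by linarith
  have h2 : T ^ (7 / 8 : ℝ) * T ^ (9 / 8 : ℝ) = T ^ 2 := by
    rw [← Real.rpow_add hT0, ← Real.rpow_natCast T 2]
    norm_num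
  have h3 : 1 ≤ T ^ (9 / 8 : ℝ) := Real.one_le_rpow hT (by norm_num)
  have h4 := abs_nonneg x
  calc 2 * |x| * (T ^ (9 / 8 : ℝ) + 1) ≤ 2 * |x| * (2 * T ^ (9 / 8 : ℝ)) := by
        refine mul_le_mul_of_nonneg_left (by linarith) (by positivity)
    _ = 4 * |x| * T ^ (9 / 8 : ℝ) := by ring
    _ ≤ T ^ (7 / 8 : ℝ) * T ^ (9 / 8 : ℝ) := mul_le_mul_of_nonneg_right h1 (by positivity)
    _ = T ^ 2 := h2

theorem main_GG : S_GG := by
  intro H hH D C x hD hC M
  set c : ℝ := D / 4 * Real.exp (-1) with hc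
  have hc0 : 0 < c := by positivity
  set C' : ℝ := Real.sqrt (2 * Real.pi) * (C * Real.exp (x ^ 2)) with hC'
  have hC0 : 0 ≤ C := (norm_nonneg _).trans (hC 0)
  have h1 : Tendsto (fun T : ℝ => c * Real.log (1 + T / 2)) atTop atTop := by
    refine Tendsto.const_mul_atTop hc0 (Real.tendsto_log_atTop.comp ?_)
    exact tendsto_atTop_add_const_left _ _ (tendsto_id.atTop_div_const (by norm_num))
  filter_upwards [h1.eventually_ge_atTop (M + C'), ev_small x, eventually_ge_atTop 1] with
    T hT1 hT2 hT Y hY1 hY2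
  have hT0 : 0 < T := by linarith
  have hTY : T ≤ Y := Y_ge hT hY1
  have hY0 : 0 ≤ Y := by linarith
  set G : ℝ → ℂ := fun t => ((D * Real.log (1 + |t|) : ℝ) : ℂ) with hG
  have hGc : Continuous G := by
    refine Complex.continuous_ofReal.comp (continuous_const.mul (Continuous.log (by fun_prop) ?_))
    intro t
    have := abs_nonneg t
    positivity
  have hWc := W_cont T x 0
  have e1 : ∫ t in (-Y)..Y, H t * W T x 0 t =
      (∫ t in (-Y)..Y, (H t + G t) * W T x 0 t) - ∫ t in (-Y)..Y, G t * W T x 0 t := by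
    have i1 : IntervalIntegrable (fun t => (H t + G t) * W T x 0 t) volume (-Y) Y :=
      ((hH.add hGc).mul hWc).intervalIntegrable _ _
    have i2 : IntervalIntegrable (fun t => G t * W T x 0 t) volume (-Y) Y :=
      (hGc.mul hWc).intervalIntegrable _ _
    rw [← intervalIntegral.integral_sub i1 i2]
    refine intervalIntegral.integral_congr fun t _ => ?_
    ring
  -- the bounded part
  have h2 : ‖∫ t in (-Y)..Y, (H t + G t) * W T x 0 t‖ ≤ C' * T := by
    have h3 := int_le (F := fun t => (H t + G t) * W T x 0 t) (b₁ := C * Real.exp (x ^ 2)) (b₂ := 0)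
      (T := T) (R := 1) (by positivity) le_rfl hT0 one_pos (fun t => ?_) hY0
    · refine h3.trans (le_of_eq ?_)
      rw [hC']; ring
    · rw [norm_mul, zero_mul, add_zero, mul_assoc]
      have h4 := W_le' hT x 0 t
      rw [mul_zero, add_zero] at h4
      exact mul_le_mul (hC t) h4 (norm_nonneg _) hC0
  -- the main part
  have h5 : (c * Real.log (1 + T / 2)) * T ≤ ‖∫ t in (-Y)..Y, G t * W T x 0 t‖ := by
    have i2 : IntervalIntegrable (fun t => G t * W T x 0 t) volume (-Y) Y :=
      (hGc.mul hWc).intervalIntegrable _ _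
    have e2 := Complex.reCLM.intervalIntegral_comp_comm i2
    have e3 : (∫ t in (-Y)..Y, G t * W T x 0 t).re =
        ∫ t in (-Y)..Y, (D * Real.log (1 + |t|)) * (W T x 0 t).re := by
      have e4 : (∫ t in (-Y)..Y, G t * W T x 0 t).re =
        ∫ t in (-Y)..Y, Complex.reCLM (G t * W T x 0 t) := e2.symm
      rw [e4]
      refine intervalIntegral.integral_congr fun t _ => ?_
      show (G t * W T x 0 t).re = _
      rw [hG]
      exact Complex.re_ofReal_mul _ _
    refine le_trans ?_ (Complex.re_le_norm _)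
    rw [e3]
    have hre : ∀ t : ℝ, |t| ≤ Y → 1 / 2 * Real.exp ((x ^ 2 - t ^ 2) / T ^ 2) ≤ (W T x 0 t).re := by
      intro t ht
      rw [W_re, mul_comm]
      refine mul_le_mul_of_nonneg_left (cos_half ?_) (Real.exp_pos _).le
      rw [abs_div, abs_mul, abs_mul, abs_of_pos (by positivity : (0:ℝ) < T ^ 2), abs_two,
        div_le_one (by positivity)]
      refine le_trans ?_ hT2
      exact mul_le_mul_of_nonneg_left (ht.trans hY2) (by positivity)
    have hlog : ∀ t : ℝ, 0 ≤ D * Real.log (1 + |t|) := fun t =>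
      mul_nonneg hD.le (Real.log_nonneg (by have := abs_nonneg t; linarith))
    have hfc : Continuous fun t : ℝ => (D * Real.log (1 + |t|)) * (W T x 0 t).re := by
      refine Continuous.mul (continuous_const.mul (Continuous.log (by fun_prop) ?_))
        (Complex.continuous_re.comp hWc)
      intro t
      have := abs_nonneg t
      positivity
    have h6 : ∫ t in (T / 2)..T, (D * Real.log (1 + |t|)) * (W T x 0 t).re ≤
        ∫ t in (-Y)..Y, (D * Real.log (1 + |t|)) * (W T x 0 t).re := by
      refine intervalIntegral.integral_mono_interval (by linarith) (by linarith) hTY ?_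
        (hfc.intervalIntegrable _ _)
      refine (ae_restrict_iff' measurableSet_Ioc).2 (Eventually.of_forall fun t ht => ?_)
      have h7 := hre t (abs_le.2 ⟨ht.1.le, ht.2⟩)
      exact mul_nonneg (hlog t) (le_trans (by positivity) h7)
    refine le_trans ?_ h6
    have h8 : ∫ _ in (T / 2)..T, (D * Real.log (1 + T / 2)) * (1 / 2 * Real.exp (-1)) ≤
        ∫ t in (T / 2)..T, (D * Real.log (1 + |t|)) * (W T x 0 t).re := by
      refine intervalIntegral.integral_mono_on (by linarith) (by simp) (hfc.intervalIntegrable _ _)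
        fun t ht => ?_
      have ht0 : 0 < t := by linarith [ht.1]
      have h9 := hre t (by rw [abs_of_pos ht0]; exact ht.2.trans hTY)
      have h10 : Real.exp (-1) ≤ Real.exp ((x ^ 2 - t ^ 2) / T ^ 2) := by
        refine Real.exp_le_exp.2 ?_
        rw [le_div_iff₀ (by positivity)]
        nlinarith [ht.2, sq_nonneg x]
      have h11 : D * Real.log (1 + T / 2) ≤ D * Real.log (1 + |t|) := by
        refine mul_le_mul_of_nonneg_left (Real.log_le_log (by linarith) ?_) hD.le
        rw [abs_of_pos ht0]; linarith [ht.1]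
      exact mul_le_mul h11 (le_trans (by linarith) h9) (by positivity) (hlog t)
    refine le_trans (le_of_eq ?_) h8
    rw [intervalIntegral.integral_const, smul_eq_mul, hc]
    ring
  rw [e1]
  have h12 := norm_sub_norm_le (∫ t in (-Y)..Y, G t * W T x 0 t)
    (∫ t in (-Y)..Y, (H t + G t) * W T x 0 t)
  rw [norm_sub_rev] at h12
  have h13 : (M + C') * T ≤ (c * Real.log (1 + T / 2)) * T := mul_le_mul_of_nonneg_right hT1 hT0.le
  linarith

end Pool.Agent.N196.BU
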